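import Pool.Agent.Helper79.TLN.StN

/-!
# Project TL, low levels, module NS-E: the series for the twisted potentials of level one
-/

set_option autoImplicit false

namespace Pool.Agent.Helper44.TLN

open Pool.Agent.Helper79.TLN Pool.Agent.Helper28.LV Pool.Agent.Helper28.WK Pool.Agent.Helper14.WK
open Pool.Agent.Helper4.TL
open Pool.Agent.Helper14.CV (G0 Homog EqC act)

/-- the functional of the coefficients -/
private noncomputable def TT (n : ℕ) (g : ℕ → ℂ) (P : Polynomial ℂ) : ℂ :=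
  ∑ j ∈ Finset.range (n + 1), P.coeff j * g j

private theorem TT_sum (n : ℕ) (g : ℕ → ℂ) {ι : Type} (s : Finset ι) (f : ι → Polynomial ℂ) :
    TT n g (∑ i ∈ s, f i) = ∑ i ∈ s, TT n g (f i) := by
  unfold TT
  simp only [Polynomial.finsetSum_coeff, Finset.sum_mul]
  exact Finset.sum_comm

private theorem TT_C (n : ℕ) (g : ℕ → ℂ) (c : ℂ) (P : Polynomial ℂ) :
    TT n g (Polynomial.C c * P) = c * TT n g P := by
  unfold TT
  rw [Finset.mul_sum]
  exact Finset.sum_congr rfl fun j _ => by rw [Polynomial.coeff_C_mul]; ring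

/-- the value at a power of a linear polynomial -/
private theorem TT_lin (n : ℕ) (g : ℕ → ℂ) (y z : ℂ) :
    TT n g ((Polynomial.C y * Polynomial.X + Polynomial.C z) ^ n) =
      ∑ t ∈ Finset.range (n + 1), (n.choose t : ℂ) * z ^ (n - t) * y ^ t * g t := by
  rw [add_pow, TT_sum]
  refine Finset.sum_congr rfl fun m hm => ?_
  have hm' : m ≤ n := Nat.lt_succ_iff.mp (Finset.mem_range.mp hm)
  have e : (Polynomial.C y * Polynomial.X) ^ m * Polynomial.C z ^ (n - m) * ((n.choose m : ℕ) : Polynomial ℂ) =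
      Polynomial.C ((n.choose m : ℂ) * z ^ (n - m) * y ^ m) * Polynomial.X ^ m := by
    rw [mul_pow]
    simp only [map_mul, map_pow, map_natCast]
    ring
  rw [e, TT_C]
  have e2 : TT n g (Polynomial.X ^ m) = g m := by
    unfold TT
    rw [Finset.sum_eq_single m]
    · rw [Polynomial.coeff_X_pow_self, one_mul]
    · intro b _ hb
      rw [Polynomial.coeff_X_pow, if_neg hb, zero_mul]
    · intro h
      exact absurd hm h
  rw [e2]

private noncomputable def hh (a : ℕ) (Ψ : ℤ → ℤ → ℕ → ℂ) (r q : ℤ) : ℂ :=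
  ∑ t ∈ Finset.range (2 * a + 1), ((2 * a).choose t : ℂ) * (-(r : ℂ)) ^ (2 * a - t) * (q : ℂ) ^ t * Ψ r q t

private theorem hh_TT (a : ℕ) (Ψ : ℤ → ℤ → ℕ → ℂ) (r q : ℤ) :
    hh a Ψ r q = TT (2 * a) (Ψ r q) ((Polynomial.C (q : ℂ) * Polynomial.X + Polynomial.C (-(r : ℂ))) ^ (2 * a)) := by
  rw [TT_lin]; rfl

/-- the value of a potential on an integral polynomial is the functional of the image -/
private theorem pr_TT (n : ℕ) (Ψ : ℤ → ℤ → ℕ → ℂ) (P : Polynomial ℤ) (hP : P.natDegree ≤ n) (x y : ℤ) :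
    pr Ψ P x y = TT n (Ψ x y) (P.map (Int.castRingHom ℂ)) := by
  unfold pr TT
  rw [Polynomial.sum_over_range' P (by simp) (n + 1) (Nat.lt_succ_of_le hP)]
  refine Finset.sum_congr rfl fun j _ => ?_
  rw [Polynomial.coeff_map, zsmul_eq_mul]
  rfl

private theorem TT_neg (n : ℕ) (g : ℕ → ℂ) (P : Polynomial ℂ) :
    TT n (fun j => -g j) P = -TT n g P := by
  unfold TT
  rw [← Finset.sum_neg_distrib]
  exact Finset.sum_congr rfl fun j _ => by ring

/-- the translation by one changes the sign -/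
private theorem hh_tr {p a : ℕ} {κ : ℤ} {Φ Ψ : ℤ → ℤ → ℕ → ℂ} (h : L1SE p a κ Φ Ψ) (x y : ℤ)
    (hxy : x ≠ 0 ∨ y ≠ 0) : hh a Ψ (x + y) y = -hh a Ψ x y := by
  have heps : eps 1 1 0 1 = -1 := by decide
  -- the step
  have key : ∀ i : ℕ, i ≤ 2 * a → Ψ (x + y) y i =
      TT (2 * a) (fun j => -Ψ x y j) ((Polynomial.X + 1) ^ i) := by
    intro i hi
    obtain ⟨c, hc⟩ := h.eqv 1 1 0 1 (by norm_num) i hi
    rw [heps] at hc
    set P : Polynomial ℤ := (Polynomial.C 1 * Polynomial.X + Polynomial.C 1) ^ i *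
      (Polynomial.C 0 * Polynomial.X + Polynomial.C 1) ^ (2 * a - i) with hPdef
    have hP' : P = (Polynomial.X + 1) ^ i := by
      rw [hPdef]; simp
    have hPd : P.natDegree ≤ 2 * a := by
      rw [hP']
      refine (Polynomial.natDegree_pow_le).trans ?_
      have : (Polynomial.X + 1 : Polynomial ℤ).natDegree ≤ 1 := by
        have := Polynomial.natDegree_X_add_C (1 : ℤ)
        rw [Polynomial.C_1] at this
        exact this.le
      nlinarith
    have hmap : P.map (Int.castRingHom ℂ) = (Polynomial.X + 1) ^ i := by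
      rw [hP']; simp
    have h0 := hc 1 0 (Or.inl one_ne_zero)
    have h1 : act 1 1 0 1 (cp Ψ i) 1 0 = 0 := by
      show Ψ (1 * 1 + 1 * 0) (0 * 1 + 1 * 0) i = 0
      have := h.inf i hi
      norm_num
      exact this
    have h2 : pr Ψ P 1 0 = 0 := by
      rw [pr_TT (2 * a) Ψ P hPd]
      unfold TT
      refine Finset.sum_eq_zero fun j hj => ?_
      rw [h.inf j (Nat.lt_succ_iff.mp (Finset.mem_range.mp hj)), mul_zero]
    rw [h1, Pi.smul_apply, Pi.smul_apply, h2, smul_zero, zero_add] at h0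
    have h3 := hc x y hxy
    rw [← h0, add_zero, Pi.smul_apply, Pi.smul_apply, neg_one_zsmul, pr_TT (2 * a) Ψ P hPd,
      hmap] at h3
    have h4 : act 1 1 0 1 (cp Ψ i) x y = Ψ (x + y) y i := by
      show Ψ (1 * x + 1 * y) (0 * x + 1 * y) i = _
      rw [one_mul, one_mul, zero_mul, zero_add]
    rw [← h4, h3, TT_neg]
  have e1 : hh a Ψ (x + y) y = TT (2 * a) (fun j => -Ψ x y j) (∑ t ∈ Finset.range (2 * a + 1),
      Polynomial.C (((2 * a).choose t : ℂ) * (-((x + y : ℤ) : ℂ)) ^ (2 * a - t) * (y : ℂ) ^ t) *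
        (Polynomial.X + 1) ^ t) := by
    rw [TT_sum]
    unfold hh
    refine Finset.sum_congr rfl fun t ht => ?_
    rw [TT_C, key t (Nat.lt_succ_iff.mp (Finset.mem_range.mp ht))]
  rw [e1, TT_neg, hh_TT]
  congr 2
  have e2 : (Polynomial.C (y : ℂ) * Polynomial.X + Polynomial.C (-(x : ℂ))) =
      Polynomial.C (y : ℂ) * (Polynomial.X + 1) + Polynomial.C (-((x + y : ℤ) : ℂ)) := by
    push_cast
    simp only [map_neg, map_add]
    ring
  rw [e2, add_pow]
  refine Finset.sum_congr rfl fun m _ => ?_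
  rw [mul_pow]
  simp only [map_mul, map_pow, map_natCast]
  ring

theorem hNS : SNNS := by
  intro hB1 hB2 hB3 N p a hN κ f I Ψ hp hodd hI hI0 hH hL r q hq
  have ha1 : 1 ≤ a := hodd.pos
  have hp0 : (p : ℂ) ≠ 0 := by exact_mod_cast hp.ne_zero
  obtain ⟨-, hcont⟩ := hB1 N hN a f ha1
  obtain ⟨-, -, hper⟩ := hB3 N hN a f ha1
  -- `Φ (1,0) = 0`
  have hΦ0 : ∀ t : ℕ, t ≤ 2 * a → PhE a I 1 0 t = 0 := by
    intro t ht
    unfold PhE
    have h1 := hH t ht (-1) 1 0 (by norm_num) (Or.inl one_ne_zero)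
    have h2 : I (-1) 0 t = 0 := by
      have : I (-1 * 1) (-1 * 0) t = I 1 0 t := h1
      rw [mul_one, mul_zero] at this
      rw [this, hI0 t ht]
    rw [mul_zero, hI0 t ht, h2, smul_zero, smul_zero, add_zero]
  have hq2 : (0 : ℤ) < 2 * q := by omega
  -- `hΦ`
  have hΦ : ∀ r : ℤ, hh a (PhE a I) r q = Complex.I * (2 * (q : ℂ)) ^ (2 * a) *
      (HK a f ((r : ℝ) / (q : ℝ) / 2) - HK a f (-((r : ℝ) / (q : ℝ) / 2))) := by
    intro r
    have k1 := hB2 N hN a f I ha1 hI r (2 * q) hq2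
    have k2 := hB2 N hN a f I ha1 hI (-r) (2 * q) hq2
    have e1 : ((-1 : ℂ)) ^ (a + 1) = 1 := hodd.add_one.neg_one_pow
    have e0 : ((r : ℝ) / (((2 * q : ℤ)) : ℝ)) = (r : ℝ) / (q : ℝ) / 2 := by
      push_cast
      rw [div_div, mul_comm]
    have e2 : (((-r : ℤ) : ℝ) / (((2 * q : ℤ)) : ℝ)) = -((r : ℝ) / (q : ℝ) / 2) := by
      push_cast
      rw [div_div, mul_comm, neg_div]
    have eq2 : (((2 * q : ℤ)) : ℂ) = 2 * (q : ℂ) := by push_cast; ring
    rw [e1, e0, eq2] at k1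
    rw [e1, e2, eq2] at k2
    have e3 : hh a (PhE a I) r q = (∑ j ∈ Finset.range (2 * a + 1),
        ((2 * a).choose j : ℂ) * (-(r : ℂ)) ^ (2 * a - j) * (2 * (q : ℂ)) ^ j * I r (2 * q) j) -
        ∑ j ∈ Finset.range (2 * a + 1),
        ((2 * a).choose j : ℂ) * (-((-r : ℤ) : ℂ)) ^ (2 * a - j) * (2 * (q : ℂ)) ^ j *
          I (-r) (2 * q) j := by
      unfold hh
      rw [← Finset.sum_sub_distrib]
      refine Finset.sum_congr rfl fun t ht => ?_
      have ht' : t ≤ 2 * a := Nat.lt_succ_iff.mp (Finset.mem_range.mp ht)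
      have e4 : (-(r : ℂ)) ^ (2 * a - t) * (-1) ^ (a + t) = -(-((-r : ℤ) : ℂ)) ^ (2 * a - t) := by
        have e5 : (-(r : ℂ)) = (-1) * (-((-r : ℤ) : ℂ)) := by push_cast; ring
        rw [e5, mul_pow]
        have e6 : ((-1 : ℂ)) ^ (2 * a - t) * (-1) ^ (a + t) = -1 := by
          rw [← pow_add]
          have : 2 * a - t + (a + t) = 3 * a := by omega
          rw [this]
          exact ((by decide : Odd 3).mul hodd).neg_one_pow
        calc (-1) ^ (2 * a - t) * (-((-r : ℤ) : ℂ)) ^ (2 * a - t) * (-1) ^ (a + t)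
            = ((-1 : ℂ) ^ (2 * a - t) * (-1) ^ (a + t)) * (-((-r : ℤ) : ℂ)) ^ (2 * a - t) := by ring
          _ = _ := by rw [e6]; ring
      have e7 : PhE a I r q t = 2 ^ t * I r (2 * q) t +
          (-1) ^ (a + t) * 2 ^ t * I (-r) (2 * q) t := by
        unfold PhE
        rw [zsmul_eq_mul, zsmul_eq_mul]
        push_cast
        ring
      rw [e7, mul_pow]
      linear_combination (((2 * a).choose t : ℂ) * (q : ℂ) ^ t * 2 ^ t * I (-r) (2 * q) t) * e4
    rw [e3, ← k1, ← k2]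
    ring
  -- the recursion
  have hrec : ∀ r : ℤ, hh a Ψ r q = ((p : ℂ) ^ a)⁻¹ * hh a Ψ (p * r) q +
      (-((κ : ℂ) * Complex.I * (2 * (q : ℂ)) ^ (2 * a))) *
        (HK a f ((r : ℝ) / (q : ℝ) / 2) - HK a f (-((r : ℝ) / (q : ℝ) / 2))) := by
    intro r
    have e1 : (κ : ℂ) * (p : ℂ) ^ (2 * a) * hh a (PhE a I) r q =
        (p : ℂ) ^ a * hh a Ψ (p * r) q - (p : ℂ) ^ (2 * a) * hh a Ψ r q := by
      unfold hh
      rw [Finset.mul_sum, Finset.mul_sum, Finset.mul_sum, ← Finset.sum_sub_distrib]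
      refine Finset.sum_congr rfl fun t ht => ?_
      have ht' : t ≤ 2 * a := Nat.lt_succ_iff.mp (Finset.mem_range.mp ht)
      have k := hL.rel t ht' r q (Or.inr hq.ne')
      rw [hΦ0 t ht', sub_zero, zsmul_eq_mul, zsmul_eq_mul, zsmul_eq_mul] at k
      push_cast at k
      have e2 : (p : ℂ) ^ (2 * a) = (p : ℂ) ^ (2 * a - t) * (p : ℂ) ^ t := by
        rw [← pow_add]; congr 1; omega
      have e3 : (-((p * r : ℤ) : ℂ)) ^ (2 * a - t) = (p : ℂ) ^ (2 * a - t) * (-(r : ℂ)) ^ (2 * a - t) := by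
        rw [← mul_pow]; congr 1; push_cast; ring
      rw [e3, e2]
      linear_combination ((p : ℂ) ^ (2 * a - t) * (((2 * a).choose t : ℂ) * (-(r : ℂ)) ^ (2 * a - t) * (q : ℂ) ^ t)) * k
    rw [hΦ r] at e1
    have e4 : (p : ℂ) ^ (2 * a) = (p : ℂ) ^ a * (p : ℂ) ^ a := by rw [← pow_add]; congr 1; ring
    have hpa : (p : ℂ) ^ a ≠ 0 := pow_ne_zero _ hp0
    rw [e4] at e1
    have e8 : (p : ℂ) ^ a * ((p : ℂ) ^ a)⁻¹ = 1 := mul_inv_cancel₀ hpa
    have e5 : (p : ℂ) ^ a * ((p : ℂ) ^ a * hh a Ψ r q) = (p : ℂ) ^ a * ((p : ℂ) ^ a *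
        (((p : ℂ) ^ a)⁻¹ * hh a Ψ (p * r) q +
        (-((κ : ℂ) * Complex.I * (2 * (q : ℂ)) ^ (2 * a))) *
        (HK a f ((r : ℝ) / (q : ℝ) / 2) - HK a f (-((r : ℝ) / (q : ℝ) / 2))))) := by
      linear_combination e1 - ((p : ℂ) ^ a * hh a Ψ (p * r) q) * e8
    exact mul_left_cancel₀ hpa (mul_left_cancel₀ hpa e5)
  -- the iterated recursion
  set x : ℝ := (r : ℝ) / (q : ℝ) with hx
  set cc : ℂ := -((κ : ℂ) * Complex.I * (2 * (q : ℂ)) ^ (2 * a)) with hcc
  have hcast : ∀ s : ℕ, (((p : ℤ) ^ s * r : ℤ) : ℝ) / (q : ℝ) / 2 = (p : ℝ) ^ s * x / 2 := by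
    intro s; rw [hx]; push_cast; ring
  have hit : ∀ R : ℕ, hh a Ψ r q = (∑ s ∈ Finset.range R, cc *
      (((p : ℂ) ^ (a * s))⁻¹ * (HK a f ((p : ℝ) ^ s * x / 2) - HK a f (-((p : ℝ) ^ s * x / 2))))) +
      (((p : ℂ) ^ a)⁻¹) ^ R * hh a Ψ ((p : ℤ) ^ R * r) q := by
    intro R
    induction R with
    | zero => simp
    | succ R ih =>
      rw [ih, Finset.sum_range_succ, hrec ((p : ℤ) ^ R * r), hcast R]
      have e1 : (p : ℤ) * ((p : ℤ) ^ R * r) = (p : ℤ) ^ (R + 1) * r := by ring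
      have e2 : ((p : ℂ) ^ (a * R))⁻¹ = (((p : ℂ) ^ a)⁻¹) ^ R := by rw [pow_mul, inv_pow]
      rw [e1, e2, pow_succ (((p : ℂ) ^ a)⁻¹) R]
      ring
  -- bounds
  obtain ⟨M, hM⟩ : ∃ M : ℝ, ∀ r : ℤ, ‖hh a Ψ r q‖ ≤ M := by
    have hP : Function.Periodic (fun r : ℤ => hh a Ψ r q) (2 * q) := by
      intro r
      show hh a Ψ (r + 2 * q) q = hh a Ψ r q
      have e : r + 2 * q = r + q + q := by ring
      rw [e, hh_tr hL _ q (Or.inr hq.ne'), hh_tr hL _ q (Or.inr hq.ne'), neg_neg]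
    refine ⟨∑ j ∈ Finset.range (2 * q).toNat, ‖hh a Ψ (j : ℤ) q‖, fun r => ?_⟩
    have e1 : hh a Ψ r q = hh a Ψ (r % (2 * q)) q := by
      have h1 : hh a Ψ (r % (2 * q) + (r / (2 * q)) * (2 * q)) q = hh a Ψ (r % (2 * q)) q := by
        have h0 := hP.int_mul (r / (2 * q)) (r % (2 * q))
        simpa only [Int.cast_id] using h0
      have h2 : r % (2 * q) + (r / (2 * q)) * (2 * q) = r := by
        rw [mul_comm (r / (2 * q)) (2 * q)]; exact Int.emod_add_mul_ediv r (2 * q)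
      rw [h2] at h1
      exact h1
    rw [e1]
    have h3 : 0 ≤ r % (2 * q) := Int.emod_nonneg r hq2.ne'
    have h4 : r % (2 * q) < 2 * q := Int.emod_lt_of_pos r hq2
    have h5 : (r % (2 * q)).toNat ∈ Finset.range (2 * q).toNat := by
      rw [Finset.mem_range]; omega
    have h6 : ((r % (2 * q)).toNat : ℤ) = r % (2 * q) := Int.toNat_of_nonneg h3
    have h7 := Finset.single_le_sum (f := fun j : ℕ => ‖hh a Ψ (j : ℤ) q‖) (fun _ _ => norm_nonneg _) h5
    simp only [h6] at h7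
    exact h7
  obtain ⟨B, hB⟩ : ∃ B : ℝ, ∀ x : ℝ, ‖HK a f x‖ ≤ B := by
    obtain ⟨B, hB⟩ := isCompact_Icc.exists_bound_of_continuousOn (s := Set.Icc (0 : ℝ) 1) hcont.continuousOn
    refine ⟨B, fun x => ?_⟩
    have hP : Function.Periodic (HK a f) 1 := hper
    have e1 : HK a f x = HK a f (Int.fract x) := by
      have h1 := hP.int_mul ⌊x⌋ (Int.fract x)
      rw [mul_one, Int.fract_add_floor] at h1
      exact h1
    rw [e1]
    exact hB _ ⟨Int.fract_nonneg x, (Int.fract_lt_one x).le⟩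
  -- the ratio
  have hpR : (1 : ℝ) < p := by exact_mod_cast hp.one_lt
  have hrat0 : (0 : ℝ) ≤ ((p : ℝ) ^ a)⁻¹ := by positivity
  have hrat : ((p : ℝ) ^ a)⁻¹ < 1 := inv_lt_one_of_one_lt₀ (one_lt_pow₀ hpR (by omega))
  have hnr : ‖((p : ℂ) ^ a)⁻¹‖ = ((p : ℝ) ^ a)⁻¹ := by
    rw [norm_inv, norm_pow, Complex.norm_natCast]
  have hsum : Summable (fun s : ℕ => ((p : ℂ) ^ (a * s))⁻¹ *
      (HK a f ((p : ℝ) ^ s * x / 2) - HK a f (-((p : ℝ) ^ s * x / 2)))) := by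
    refine Summable.of_norm_bounded (g := fun s : ℕ => (((p : ℝ) ^ a)⁻¹) ^ s * (B + B))
      ((summable_geometric_of_lt_one hrat0 hrat).mul_right _) fun s => ?_
    rw [norm_mul]
    have e2 : ((p : ℂ) ^ (a * s))⁻¹ = (((p : ℂ) ^ a)⁻¹) ^ s := by rw [pow_mul, inv_pow]
    rw [e2, norm_pow, hnr]
    exact mul_le_mul_of_nonneg_left ((norm_sub_le _ _).trans (add_le_add (hB _) (hB _))) (by positivity)
  have h1 : Filter.Tendsto (fun R : ℕ => ∑ s ∈ Finset.range R, cc *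
      (((p : ℂ) ^ (a * s))⁻¹ * (HK a f ((p : ℝ) ^ s * x / 2) - HK a f (-((p : ℝ) ^ s * x / 2)))))
      Filter.atTop (nhds (cc * GpE p a f x)) :=
    (hsum.hasSum.mul_left cc).tendsto_sum_nat
  have h2 : Filter.Tendsto (fun R : ℕ => hh a Ψ r q - (((p : ℂ) ^ a)⁻¹) ^ R * hh a Ψ ((p : ℤ) ^ R * r) q)
      Filter.atTop (nhds (hh a Ψ r q - 0)) := by
    refine tendsto_const_nhds.sub ?_
    refine squeeze_zero_norm (a := fun R : ℕ => (((p : ℝ) ^ a)⁻¹) ^ R * M) (fun R => ?_) ?_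
    · rw [norm_mul, norm_pow, hnr]
      exact mul_le_mul_of_nonneg_left (hM _) (by positivity)
    · have := (tendsto_pow_atTop_nhds_zero_of_lt_one hrat0 hrat).mul_const M
      rwa [zero_mul] at this
  have h3 : (fun R : ℕ => hh a Ψ r q - (((p : ℂ) ^ a)⁻¹) ^ R * hh a Ψ ((p : ℤ) ^ R * r) q) =
      fun R : ℕ => ∑ s ∈ Finset.range R, cc *
      (((p : ℂ) ^ (a * s))⁻¹ * (HK a f ((p : ℝ) ^ s * x / 2) - HK a f (-((p : ℝ) ^ s * x / 2)))) := by
    funext R
    have := hit R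
    linear_combination this
  rw [h3, sub_zero] at h2
  have h4 := tendsto_nhds_unique h2 h1
  show hh a Ψ r q = _
  rw [h4, hcc]
  ring

end Pool.Agent.Helper44.TLN
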